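import Mathlib

/-!
# o-conjugacy is partition covering

For every partition of a nonempty set `X` (given by an equivalence relation) there is an
associative operation on `X` whose o-conjugacy classes are the blocks of the partition.
-/

set_option autoImplicit false

namespace Pool.Agent.Results.MP_45ad35_al.PartitionCovering

universe u

/-- `S` has an identity element. -/
def HasIdentity (S : Type u) [Semigroup S] : Prop :=
  ∃ e : S, ∀ x : S, e * x = x ∧ x * e = x

/-- Two elements `a, b` of a semigroup `S` are o-conjugate if there are `g, h` in `S¹` with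
`a g = g b` and `b h = h a`. Here `S¹` is `S` if `S` has an identity, and `S` with an identity
adjoined otherwise; in `WithOne S` an identity is adjoined in all cases, so `g` and `h` are
required to come from `S` if `S` has an identity. -/
def OConj {S : Type u} [Semigroup S] (a b : S) : Prop :=
  ∃ g h : WithOne S,
    (HasIdentity S → (∃ g' : S, g = (g' : WithOne S)) ∧ ∃ h' : S, h = (h' : WithOne S)) ∧
      (a : WithOne S) * g = g * (b : WithOne S) ∧ (b : WithOne S) * h = h * (a : WithOne S)

/-- Every nonempty type carries the structure of a commutative group. -/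
theorem exists_commGroup (I : Type u) [Nonempty I] : Nonempty (CommGroup I) := by
  rcases finite_or_infinite I with hf | hi
  · obtain ⟨n, ⟨e⟩⟩ := Finite.exists_equiv_fin I
    have hn : NeZero n := ⟨by
      rintro rfl
      exact (e (Classical.arbitrary I)).elim0⟩
    exact ⟨(e.trans Multiplicative.ofAdd).commGroup⟩
  · obtain ⟨F⟩ := Infinite.nonempty_field (α := I)
    exact ⟨(Multiplicative.ofAdd : I ≃ Multiplicative I).commGroup⟩

/-- **o-conjugacy is partition covering.** For every nonempty set `X` and every partition of `X`,
that is, every equivalence relation `τ` on `X`, there is a semigroup with universe `X` in which two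
elements are o-conjugate exactly if they lie in the same block of `τ`. -/
theorem result : ∀ (X : Type u) [Nonempty X] (τ : Setoid X),
    ∃ _ : Semigroup X, ∀ a b : X, OConj a b ↔ τ a b := by
  intro X _ τ
  have : Nonempty (Quotient τ) := ⟨Quotient.mk τ (Classical.arbitrary X)⟩
  obtain ⟨G⟩ := exists_commGroup (Quotient τ)
  let p : X → Quotient τ := Quotient.mk τ
  let s : Quotient τ → X := Quotient.out
  have ps : ∀ q, p (s q) = q := Quotient.out_eq
  let S : Semigroup X :=
    { mul := fun a b => s (p a * p b)
      mul_assoc := fun a b c => by
        show s (p (s (p a * p b)) * p c) = s (p a * p (s (p b * p c)))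
        rw [ps, ps, mul_assoc] }
  have hmul : ∀ a b : X, a * b = s (p a * p b) := fun _ _ => rfl
  have hp : ∀ a b : X, p (a * b) = p a * p b := fun a b => by rw [hmul, ps]
  refine ⟨S, fun a b => ?_⟩
  have hτ : τ a b ↔ p a = p b := Quotient.eq.symm
  rw [hτ]
  constructor
  · rintro ⟨g, h, -, h1, -⟩
    induction g with
    | one => 
      rw [mul_one, one_mul] at h1
      rw [WithOne.coe_inj.1 h1]
    | coe g =>
      rw [← WithOne.coe_mul, ← WithOne.coe_mul, WithOne.coe_inj] at h1
      have h2 := congrArg p h1
      rw [hp, hp, mul_comm] at h2
      exact mul_left_cancel h2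
  · intro hab
    refine ⟨(a : WithOne X), (a : WithOne X), fun _ => ⟨⟨a, rfl⟩, ⟨a, rfl⟩⟩, ?_, ?_⟩
    · rw [← WithOne.coe_mul, ← WithOne.coe_mul, hmul, hmul, hab]
    · rw [← WithOne.coe_mul, ← WithOne.coe_mul, hmul, hmul, hab]

end Pool.Agent.Results.MP_45ad35_al.PartitionCovering
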